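import Pool.Agent.MP_20201c_gt.H42.TMain
import Pool.Agent.MP_20201c_gt.H27.Intr

/-! Every `p`-width of a bounded planar domain with smooth boundary, defined with relative flat
`1`-cycles mod `2`, is a sum of lengths of billiard trajectories. -/

open Set
open Pool.Agent.MP_20201c_gt.H91 Pool.Agent.MP_20201c_gt.H27 Pool.Agent.MP_20201c_gt.H42

namespace Pool.Agent.Results.MP_20201c_gt.FlatWidths

theorem result (Ω : Set ℂ) (ho : IsOpen Ω) (hc : IsConnected Ω) (hb : Bornology.IsBounded Ω)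
    (hs : SmoothBd Ω) (p : ℕ) (hp : 1 ≤ p) (C : Set (RelCyc Ω)) (hne : C.Nonempty)
    (hC : ∀ z ∈ C, connectedComponent z ⊆ C) :
    ∃ 𝓛 : List (List (ℂ × ℂ)), 𝓛 ≠ [] ∧ (∀ γ ∈ 𝓛, Billiard Ω γ) ∧
      wid C p = ENNReal.ofReal (𝓛.map len).sum := by
  obtain ⟨ρ, h1, h2, h3⟩ := exists_global ho hb hs
  obtain ⟨𝓛, h4, h5, h6⟩ := main_flat h1 (h2 ▸ hb) h3 h2 hc hne hC hp
  exact ⟨𝓛, h4, fun γ hγ => h2 ▸ billiard_of h1 h3 (h5 γ hγ), h6⟩

end Pool.Agent.Results.MP_20201c_gt.FlatWidths
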